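import Mathlib

namespace Pool.Agent.Results.MP_3fd052_nt.Fails

/-- safe position -/
def Safe (x d : ZMod 11) : Prop := ∀ u : Fin 7, x + (u : ℕ) * d ≠ 0

instance (x d : ZMod 11) : Decidable (Safe x d) := by unfold Safe; infer_instance

lemma move : ∀ x d e : ZMod 11, d ≠ 0 → e ≠ 0 → e ≠ d → Safe x d →
    ∃ l : Fin 10, 3 ≤ (l : ℕ) ∧ (∀ t : Fin 10, t ≤ l → x + (t : ℕ) * d ≠ 0) ∧
      Safe (x + (l : ℕ) * d) e := by
  decide +kernel

open Classical in
/-- the chosen gap -/
noncomputable def gap (x d e : ZMod 11) : ℕ :=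
  if h : d ≠ 0 ∧ e ≠ 0 ∧ e ≠ d ∧ Safe x d then ((move x d e h.1 h.2.1 h.2.2.1 h.2.2.2).choose : ℕ)
  else 3

lemma gap_ge (x d e : ZMod 11) : 3 ≤ gap x d e := by
  unfold gap
  split_ifs with h
  · exact (move x d e h.1 h.2.1 h.2.2.1 h.2.2.2).choose_spec.1
  · rfl

lemma gap_spec {x d e : ZMod 11} (h : d ≠ 0 ∧ e ≠ 0 ∧ e ≠ d ∧ Safe x d) :
    (∀ t : ℕ, t ≤ gap x d e → x + t * d ≠ 0) ∧ Safe (x + gap x d e * d) e := by
  unfold gap
  rw [dif_pos h]
  obtain ⟨-, h2, h3⟩ := (move x d e h.1 h.2.1 h.2.2.1 h.2.2.2).choose_spec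
  exact ⟨fun t ht => h2 ⟨t, lt_of_le_of_lt ht (Fin.is_lt _)⟩ ht, h3⟩

/-- stage j holds the start of block j + 1 and the values below it -/
noncomputable def st : ℕ → ℕ × (ℕ → ℤ)
  | 0 => (4, fun n => n + 1)
  | j + 1 => ((st j).1 + gap ((st j).2 ((st j).1 - 1)) ((st j).2 (j + 1)) ((st j).2 (j + 2)),
      fun n => if n < (st j).1 then (st j).2 n else
        (st j).2 ((st j).1 - 1) + ((n : ℤ) - (st j).1 + 1) * (st j).2 (j + 1))

/-- block starts -/
noncomputable def kk : ℕ → ℕ
  | 0 => 0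
  | j + 1 => (st j).1

lemma kk_gap (j : ℕ) : kk j + 3 ≤ kk (j + 1) := by
  rcases j with _ | j
  · simp [kk, st]
  · simp only [kk, st]; exact Nat.add_le_add_left (gap_ge _ _ _) _

lemma kk_mono : StrictMono kk := strictMono_nat_of_lt_succ fun j => by have := kk_gap j; omega

lemma kk_ge (j : ℕ) : j + 4 ≤ kk (j + 1) := by
  induction j with
  | zero => simp [kk, st]
  | succ j ih => have := kk_gap (j + 1); omega

/-- the values at the block starts -/
noncomputable def cc (n : ℕ) : ℤ := (st n).2 n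

lemma st_stable {i j n : ℕ} (h : i ≤ j) (hn : n < kk (i + 1)) : (st j).2 n = (st i).2 n := by
  induction j, h using Nat.le_induction with
  | base => rfl
  | succ j hj ih =>
    have := kk_mono.monotone (Nat.add_le_add_right hj 1)
    simp only [st, kk] at this hn ⊢
    rw [if_pos (by omega), ih]

lemma st_cc {j n : ℕ} (hn : n < kk (j + 1)) : (st j).2 n = cc n := by
  rcases le_total j n with h | h
  · exact (st_stable h hn).symm
  · exact st_stable h (by have := kk_ge n; omega)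

lemma cc_block {j n : ℕ} (h1 : kk (j + 1) ≤ n + 1) (h2 : n < kk (j + 1 + 1)) :
    cc n = cc (kk (j + 1) - 1) + ((n : ℤ) - kk (j + 1) + 1) * cc (j + 1) := by
  have h3 := kk_ge j
  rw [← st_cc h2, ← st_cc (j := j) (n := kk (j + 1) - 1) (by omega),
    ← st_cc (j := j) (n := j + 1) (by omega)]
  simp only [st, kk] at *
  split_ifs with h
  · rw [show (st j).1 - 1 = n by omega, show ((st j).1 : ℤ) = n + 1 by omega]; ring
  · rfl

lemma cc_small {n : ℕ} (h : n < 4) : cc n = n + 1 := (st_cc (j := 0) h).symm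

lemma cc_step {j n : ℕ} (h1 : kk j ≤ n + 1) (h2 : n + 1 < kk (j + 1)) :
    cc (n + 1) - cc n = cc j := by
  rcases j with _ | j
  · rw [cc_small h2, cc_small (n := n) (by simp only [kk, st] at h2; omega), cc_small (by omega)]
    push_cast; ring
  · rw [cc_block (n := n + 1) (by omega) h2, cc_block h1 (by omega)]
    push_cast; ring

lemma exists_block (n : ℕ) : ∃ j, kk j ≤ n ∧ n < kk (j + 1) := by
  induction n with
  | zero => exact ⟨0, le_rfl, by simp [kk, st]⟩
  | succ n ih =>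
    obtain ⟨j, h1, h2⟩ := ih
    by_cases h : n + 1 < kk (j + 1)
    · exact ⟨j, by omega, h⟩
    · exact ⟨j + 1, by omega, by have := kk_gap (j + 1); omega⟩

lemma inv (j : ℕ) : (∀ n < kk (j + 1), (cc n : ZMod 11) ≠ 0) ∧
    Safe (cc (kk (j + 1) - 1)) (cc (j + 1)) := by
  induction j with
  | zero =>
    refine ⟨fun n hn => ?_, ?_⟩
    · change n < 4 at hn
      rw [cc_small hn]
      interval_cases n <;> decide
    · change Safe (cc 3) (cc 1)
      rw [cc_small (by omega), cc_small (by omega)]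
      decide
  | succ j ih =>
    obtain ⟨h1, h2⟩ := ih
    have h3 := kk_ge j
    have h4 : (cc (j + 2) : ZMod 11) ≠ cc (j + 1) := by
      obtain ⟨i, h5, h6⟩ := exists_block (j + 1 + 1)
      have h7 := congrArg (fun z : ℤ => (z : ZMod 11)) (cc_step h5 h6)
      have h8 : i ≤ kk i := kk_mono.le_apply
      intro h9
      push_cast at h7
      rw [h9, sub_self] at h7
      exact h1 i (by omega) h7.symm
    obtain ⟨h5, h6⟩ := gap_spec ⟨h1 (j + 1) (by omega), h1 (j + 2) (by omega), h4, h2⟩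
    have e : kk (j + 1 + 1) = kk (j + 1) + gap (cc (kk (j + 1) - 1)) (cc (j + 1)) (cc (j + 2)) := by
      rw [← st_cc (j := j) (n := kk (j + 1) - 1) (by omega),
        ← st_cc (j := j) (n := j + 1) (by omega), ← st_cc (j := j) (n := j + 2) (by omega)]
      rfl
    have h7 := kk_gap (j + 1)
    refine ⟨fun n hn => ?_, ?_⟩
    · by_cases h : n < kk (j + 1)
      · exact h1 n h
      · rw [cc_block (by omega) hn]
        have := h5 (n + 1 - kk (j + 1)) (by omega)
        rw [Nat.cast_sub (by omega)] at this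
        push_cast at this ⊢
        convert this using 2
        ring
    · rw [cc_block (j := j) (n := kk (j + 1 + 1) - 1) (by omega) (by omega)]
      convert h6 using 1
      rw [Nat.cast_sub (by omega), e]
      push_cast; ring

/-- There is a sequence K with all gaps at least 3 and a K-sequence with no value divisible
by 11. -/
theorem result : ∃ (k : ℕ → ℕ) (b : ℕ → ℤ), k 0 = 0 ∧ (∀ n, k n + 3 ≤ k (n + 1)) ∧
    (∀ n m, k n ≤ m → m < k (n + 1) → b m = b (k n)) ∧
    (∀ n, b (k (n + 1)) - b (k n) = b (n + 1)) ∧ ∀ n, ¬ (11 : ℤ) ∣ b n := by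
  choose J hJ1 hJ2 using exists_block
  have hJ : ∀ n m, kk n ≤ m → m < kk (n + 1) → J m = n := by
    intro n m h1 h2
    have h3 := kk_mono.lt_iff_lt.1 (lt_of_le_of_lt h1 (hJ2 m))
    have h4 := kk_mono.lt_iff_lt.1 (lt_of_le_of_lt (hJ1 m) h2)
    omega
  have hK : ∀ n, J (kk n) = n := fun n => hJ n _ le_rfl (kk_mono (Nat.lt_succ_self n))
  refine ⟨kk, fun n => cc (J n), rfl, kk_gap, fun n m h1 h2 => by simp only [hJ n m h1 h2, hK],
    fun n => ?_, fun n h => ?_⟩
  · simp only [hK]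
    exact cc_step (hJ1 _) (hJ2 _)
  · exact (inv (J n)).1 (J n) (by have := kk_ge (J n); omega)
      ((ZMod.intCast_zmod_eq_zero_iff_dvd _ 11).2 h)

end Pool.Agent.Results.MP_3fd052_nt.Fails
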